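import Pool.Agent.TH571.PCV.UnitsSum

set_option autoImplicit false

/-!
# The average of the distance to the nearest integer over the multiples by units
-/

namespace Pool.Agent.Helper84.P2

open Finset ArithmeticFunction ArithmeticFunction.Moebius Pool.Agent.TH571.PCV

/-- The sum of `min k (n - k)` over the `k < n` prime to `n`. -/
def msum (n : ℕ) : ℤ := ∑ k ∈ (range n).filter (fun k => n.Coprime k), min (k : ℤ) (n - k)

lemma sum_min (m : ℕ) : 4 * ∑ j ∈ range m, min (j : ℤ) (m - j) = m ^ 2 - (m % 2 : ℕ) := by
  induction m using Nat.strong_induction_on with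
  | _ m ih =>
    match m with
    | 0 => simp
    | 1 => simp
    | m + 2 =>
      have h := ih m (by omega)
      rw [Finset.sum_range_succ']
      have h1 : ∀ j ∈ range (m + 1), min (((j + 1 : ℕ) : ℤ)) (((m + 2 : ℕ) : ℤ) - ((j + 1 : ℕ) : ℤ)) =
          min (j : ℤ) (m - j) + 1 := by
        intro j _
        push_cast
        rw [← min_add_add_right]
        congr 1
        ring
      rw [Finset.sum_congr rfl h1, Finset.sum_add_distrib, Finset.sum_range_succ]
      have h2 : min (m : ℤ) (m - m) = 0 := by
        rw [sub_self]; exact min_eq_right (by positivity)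
      have h3 : min (((0 : ℕ) : ℤ)) (((m + 2 : ℕ) : ℤ) - ((0 : ℕ) : ℤ)) = 0 := by
        exact min_eq_left (by push_cast; omega)
      rw [h2, h3, Finset.sum_const, Finset.card_range, Nat.add_mod_right]
      push_cast
      have h4 : 4 * ∑ j ∈ range m, min (j : ℤ) (m - j) = m ^ 2 - ((m : ℤ) % 2) := by
        rw [h]; push_cast; rfl
      simp only [nsmul_eq_mul, mul_one]
      push_cast
      linarith

lemma four_msum (n : ℕ) (hn : 0 < n) :
    4 * msum n = n * n.totient -
      ∑ e ∈ n.divisors, (if Odd (n / e) then μ e * (e : ℤ) else 0) := by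
  have hphi : (n.totient : ℤ) = ∑ e ∈ n.divisors, μ e * (n / e : ℕ) := by
    have h1 := sum_coprime n hn (fun _ => 1)
    simp only [Finset.sum_const, nsmul_eq_mul, mul_one, Finset.card_range] at h1
    rw [← h1]
    rfl
  rw [msum, sum_coprime n hn (fun k => min (k : ℤ) (n - k)), Finset.mul_sum, hphi, Finset.mul_sum,
    ← Finset.sum_sub_distrib]
  refine Finset.sum_congr rfl fun e he => ?_
  obtain ⟨M, rfl⟩ := Nat.dvd_of_mem_divisors he
  have he0 : 0 < e := Nat.pos_of_ne_zero (fun h => by rw [h, zero_mul] at hn; omega)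
  rw [Nat.mul_div_cancel_left M he0]
  have h2 : ∑ j ∈ range M, min (((e * j : ℕ) : ℤ)) (((e * M : ℕ) : ℤ) - (e * j : ℕ)) =
      e * ∑ j ∈ range M, min (j : ℤ) (M - j) := by
    rw [Finset.mul_sum]
    refine Finset.sum_congr rfl fun j _ => ?_
    rw [mul_min_of_nonneg _ _ (by positivity)]
    push_cast
    congr 1
    ring
  rw [h2]
  have h3 := sum_min M
  rcases Nat.even_or_odd M with h | h
  · rw [if_neg (Nat.not_odd_iff_even.2 h)]
    rw [Nat.even_iff.1 h] at h3
    push_cast at h3 ⊢
    linear_combination (μ e * (e : ℤ)) * h3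
  · rw [if_pos h]
    rw [Nat.odd_iff.1 h] at h3
    push_cast at h3 ⊢
    linear_combination (μ e * (e : ℤ)) * h3

lemma abs_prod_le (n : ℕ) (hn : 0 < n) :
    |∏ p ∈ n.primeFactors, (1 - (p : ℤ))| ≤ n.totient := by
  rw [Finset.abs_prod]
  have h1 : ∏ p ∈ n.primeFactors, |1 - (p : ℤ)| = ∏ p ∈ n.primeFactors, ((p - 1 : ℕ) : ℤ) := by
    refine Finset.prod_congr rfl fun p hp => ?_
    have := (Nat.prime_of_mem_primeFactors hp).one_lt
    rw [abs_of_neg (by omega)]
    omega
  rw [h1, ← Nat.cast_prod]
  have h4 := Nat.totient_mul_prod_primeFactors n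
  have h5 : ∏ p ∈ n.primeFactors, p ≤ n := Nat.le_of_dvd hn (Nat.prod_primeFactors_dvd n)
  have h6 : 0 < ∏ p ∈ n.primeFactors, p :=
    Finset.prod_pos fun p hp => (Nat.prime_of_mem_primeFactors hp).pos
  have h7 : (∏ p ∈ n.primeFactors, (p - 1)) ≤ n.totient := by
    by_contra hcon
    rw [not_le] at hcon
    have h8 : n.totient * ∏ p ∈ n.primeFactors, p ≤ n.totient * n := Nat.mul_le_mul_left _ h5
    have h9 : n * n.totient < n * ∏ p ∈ n.primeFactors, (p - 1) := Nat.mul_lt_mul_of_pos_left hcon hn
    rw [← h4] at h9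
    rw [mul_comm n] at h9
    omega
  exact_mod_cast h7

lemma error_le (n : ℕ) (hn : 0 < n) :
    |∑ e ∈ n.divisors, (if Odd (n / e) then μ e * (e : ℤ) else 0)| ≤ 2 * n.totient := by
  rcases Nat.even_or_odd n with hev | hodd
  · obtain ⟨m, hm⟩ := hev
    have hm2 : n = 2 * m := by omega
    clear hm
    subst hm2
    have hm0 : 0 < m := by omega
    rcases Nat.even_or_odd m with hme | hmo
    · have h0 : ∑ e ∈ (2 * m).divisors, (if Odd ((2 * m) / e) then μ e * (e : ℤ) else 0) = 0 := by
        refine Finset.sum_eq_zero fun e he => ?_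
        split_ifs with h
        · obtain ⟨k, hk⟩ := Nat.dvd_of_mem_divisors he
          have he0 : 0 < e := Nat.pos_of_mem_divisors he
          rw [hk, Nat.mul_div_cancel_left k he0] at h
          have h4 : 4 ∣ e := by
            obtain ⟨r, hr⟩ := hme
            have : 4 ∣ e * k := ⟨r, by omega⟩
            exact (Nat.Coprime.dvd_of_dvd_mul_right (by
              have : Nat.Coprime 2 k := Nat.coprime_two_left.2 h
              exact Nat.Coprime.pow_left 2 this) this)
          have h5 : ¬ Squarefree e := by
            intro hs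
            have := hs 2 (by simpa using h4)
            exact absurd (Nat.isUnit_iff.1 this) (by norm_num)
          rw [moebius_eq_zero_of_not_squarefree h5, zero_mul]
        · rfl
      rw [h0, abs_zero]
      positivity
    · have h0 : ∑ e ∈ (2 * m).divisors, (if Odd ((2 * m) / e) then μ e * (e : ℤ) else 0) =
          ∑ e ∈ m.divisors, -2 * (μ e * (e : ℤ)) := by
        rw [← Finset.sum_filter]
        symm
        refine Finset.sum_nbij (fun e => 2 * e) ?_ ?_ ?_ ?_
        · intro e he
          have h1 := Nat.dvd_of_mem_divisors he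
          have he0 : 0 < e := Nat.pos_of_mem_divisors he
          rw [Finset.mem_filter, Nat.mem_divisors]
          refine ⟨⟨Nat.mul_dvd_mul_left 2 h1, by omega⟩, ?_⟩
          rw [Nat.mul_div_mul_left _ _ (by norm_num : 0 < 2)]
          obtain ⟨k, rfl⟩ := h1
          rw [Nat.mul_div_cancel_left k he0]
          exact (Nat.odd_mul.1 hmo).2
        · intro e _ e' _ h
          simpa using h
        · intro e he
          rw [Finset.mem_coe, Finset.mem_filter] at he
          obtain ⟨k, hk⟩ := Nat.dvd_of_mem_divisors he.1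
          have he0 : 0 < e := Nat.pos_of_mem_divisors he.1
          have hko := he.2
          rw [hk, Nat.mul_div_cancel_left k he0] at hko
          have h2e : 2 ∣ e := (Nat.Coprime.dvd_of_dvd_mul_right (Nat.coprime_two_left.2 hko)
            (by rw [← hk]; exact dvd_mul_right _ _))
          obtain ⟨f, rfl⟩ := h2e
          refine ⟨f, ?_, rfl⟩
          rw [Finset.mem_coe, Nat.mem_divisors]
          refine ⟨⟨k, ?_⟩, hm0.ne'⟩
          have : 2 * m = 2 * (f * k) := by rw [hk]; ring
          omega
        · intro e he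
          have h1 := Nat.dvd_of_mem_divisors he
          have heo : Odd e := by
            obtain ⟨k, rfl⟩ := h1
            exact (Nat.odd_mul.1 hmo).1
          rw [isMultiplicative_moebius.map_mul_of_coprime (Nat.coprime_two_left.2 heo),
            moebius_apply_prime Nat.prime_two]
          push_cast
          ring
      rw [h0, ← Finset.mul_sum, sum_mu_id m hm0.ne', abs_mul]
      have h1 := abs_prod_le m hm0
      have h2 : (2 * m).totient = m.totient := by
        rw [Nat.totient_mul (Nat.coprime_two_left.2 hmo)]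
        simp
      rw [h2]
      have : |(-2 : ℤ)| = 2 := rfl
      rw [this]
      linarith
  · have h0 : ∑ e ∈ n.divisors, (if Odd (n / e) then μ e * (e : ℤ) else 0) =
        ∑ e ∈ n.divisors, μ e * (e : ℤ) := by
      refine Finset.sum_congr rfl fun e he => ?_
      obtain ⟨k, hk⟩ := Nat.dvd_of_mem_divisors he
      have he0 : 0 < e := Nat.pos_of_mem_divisors he
      rw [if_pos]
      rw [hk, Nat.mul_div_cancel_left k he0]
      rw [hk] at hodd
      exact (Nat.odd_mul.1 hodd).2
    rw [h0, sum_mu_id n hn.ne']
    have h1 := abs_prod_le n hn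
    have : (0 : ℤ) ≤ n.totient := by positivity
    linarith

/-- The average is at most `3 / 10` from four on. -/
theorem msum_le (n : ℕ) (hn : 4 ≤ n) : 10 * msum n ≤ 3 * (n * n.totient) := by
  rcases lt_or_ge n 10 with h | h
  · interval_cases n <;> decide +kernel
  · have h1 := four_msum n (by omega)
    have h2 := (abs_le.1 (error_le n (by omega))).1
    have h3 : (10 : ℤ) ≤ n := by exact_mod_cast h
    have h4 : (0 : ℤ) ≤ n.totient := by positivity
    nlinarith

theorem msum_le' (n : ℕ) (hn : 3 ≤ n) : 3 * msum n ≤ n * n.totient := by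
  rcases Nat.lt_or_ge n 4 with h | h
  · interval_cases n
    decide +kernel
  · have h1 := msum_le n h
    have h4 : (0 : ℤ) ≤ n * n.totient := by positivity
    omega

lemma msum_one : msum 1 = 0 := by decide +kernel

end Pool.Agent.Helper84.P2
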