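import Pool.Agent.Helper84.PC.Core

set_option autoImplicit false

/-!
# Order two: the parity criterion
-/

namespace Pool.Agent.Helper84.P2

open Finset Pool.Agent.Helper84.PC

variable {ι : Type*} [Fintype ι] [DecidableEq ι]

/-- The parity criterion. -/
theorem parity {e : ι → Fin 2 → ℚ} {N : ℕ} {F : ℤ} (hF : ∑ x, ∑ l, e x l = F) (G : Ineq e N)
    (x₀ : ι) {a : ℤ} (ha : IsCoprime a (N : ℤ)) (v : ι → ℤ) (hodd : Odd (a * F + ∑ x, v x)) :
    1 < ∑ x, |(a : ℚ) * (e x 1 - e x 0) - v x| := by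
  by_contra hcon
  rw [not_lt] at hcon
  set w : ι → ℚ := fun x => (a : ℚ) * (e x 1 - e x 0) - v x with hw
  set σ : ℚ := ∑ x, |w x| with hσ
  have hσ1 : σ ≤ 1 := hcon
  set t : ι → ℚ := fun x => if x = x₀ then (1 - σ) / 2 else 0 with ht
  have ht0 : ∀ x, 0 ≤ t x := by
    intro x
    simp only [ht]
    split_ifs
    · linarith
    · exact le_rfl
  have hts : ∑ x, t x = (1 - σ) / 2 := by
    simp only [ht, sum_ite_eq', mem_univ, if_true]
  obtain ⟨r, hr⟩ := hodd
  have hF' : ∑ x, (e x 0 + e x 1) = (F : ℚ) := by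
    rw [← hF]
    exact sum_congr rfl fun x _ => (Fin.sum_univ_two _).symm
  have hsum : ∑ x, ((a : ℚ) * e x 0 + (w x - |w x|) / 2 - t x) = ((r - ∑ x, v x : ℤ) : ℚ) := by
    rw [sum_sub_distrib, sum_add_distrib, hts, ← sum_div, sum_sub_distrib, ← hσ]
    have h1 : ∑ x, w x = (a : ℚ) * ∑ x, (e x 1 - e x 0) - ∑ x, (v x : ℚ) := by
      simp only [hw]
      rw [sum_sub_distrib, mul_sum]
    rw [h1, ← mul_sum]
    have h2 : ∑ x, (e x 1 - e x 0) = (F : ℚ) - 2 * ∑ x, e x 0 := by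
      rw [← hF', mul_sum, ← sum_sub_distrib]
      exact sum_congr rfl fun x _ => by ring
    rw [h2]
    have h3 : (a : ℚ) * F + ∑ x, (v x : ℚ) = 2 * r + 1 := by exact_mod_cast hr
    push_cast
    linear_combination h3 / 2
  have h := G a ha (fun x => (a : ℚ) * e x 0 + (w x - |w x|) / 2 - t x) _ hsum
  have hfr : ∀ y : ℚ, 0 ≤ y → Int.fract y ≤ y := by
    intro y hy
    have : (0 : ℤ) ≤ ⌊y⌋ := Int.floor_nonneg.2 hy
    have h2 : (0 : ℚ) ≤ ⌊y⌋ := by exact_mod_cast this
    have h3 := Int.self_sub_floor y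
    linarith
  have hb : ∀ x, ∑ l, Int.fract ((a : ℚ) * e x l - ((a : ℚ) * e x 0 + (w x - |w x|) / 2 - t x)) ≤
      |w x| + 2 * t x := by
    intro x
    rw [Fin.sum_univ_two]
    have habs := abs_le.1 (le_refl |w x|)
    have e0 : Int.fract ((a : ℚ) * e x 0 - ((a : ℚ) * e x 0 + (w x - |w x|) / 2 - t x)) ≤
        (|w x| - w x) / 2 + t x := by
      have : (a : ℚ) * e x 0 - ((a : ℚ) * e x 0 + (w x - |w x|) / 2 - t x) =
          (|w x| - w x) / 2 + t x := by ring
      rw [this]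
      exact hfr _ (by linarith [ht0 x, habs.2])
    have e1 : Int.fract ((a : ℚ) * e x 1 - ((a : ℚ) * e x 0 + (w x - |w x|) / 2 - t x)) ≤
        (|w x| + w x) / 2 + t x := by
      have : Int.fract ((a : ℚ) * e x 1 - ((a : ℚ) * e x 0 + (w x - |w x|) / 2 - t x)) =
          Int.fract ((|w x| + w x) / 2 + t x) := by
        apply fract_congr
        refine ⟨v x, ?_⟩
        simp only [hw]
        ring
      rw [this]
      exact hfr _ (by linarith [ht0 x, habs.1])
    linarith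
  have h5 := sum_le_sum fun x (_ : x ∈ univ) => hb x
  rw [sum_add_distrib, ← mul_sum, hts, ← hσ] at h5
  push_cast at h
  linarith

/-- The parity criterion for multipliers prime to the denominators of the differences only. -/
theorem parity' {e : ι → Fin 2 → ℚ} {N : ℕ} (hN : 0 < N) {F : ℤ} (hF : ∑ x, ∑ l, e x l = F)
    (G : Ineq e N) (x₀ : ι) {D : ℕ} (hD0 : 0 < D)
    (hD : ∀ x, ∃ w : ℤ, (D : ℚ) * (e x 1 - e x 0) = w) {a : ℤ} (ha : IsCoprime a (2 * D : ℤ))
    (v : ι → ℤ) (hodd : Odd (a * F + ∑ x, v x)) :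
    1 < ∑ x, |(a : ℚ) * (e x 1 - e x 0) - v x| := by
  obtain ⟨a₂, ha₂, hdv⟩ := exists_lift (q := 2 * D) (N := 2 * D * N) (by positivity)
    (dvd_mul_right _ _) a (by push_cast; exact ha)
  push_cast at ha₂ hdv
  obtain ⟨k, hk⟩ := hdv
  choose w hw using hD
  have h := parity hF G x₀ (a := a₂) (IsCoprime.of_mul_right_right ha₂)
    (fun x => v x + 2 * k * w x) (by
      have e1 : a₂ * F + ∑ x, (v x + 2 * k * w x) = (a * F + ∑ x, v x) + 2 * (k * (D * F + ∑ x, w x)) := by
        rw [sum_add_distrib, ← mul_sum]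
        linear_combination F * hk
      rw [e1]
      exact Odd.add_even hodd (even_two_mul _))
  refine h.trans_le (le_of_eq (sum_congr rfl fun x _ => ?_))
  congr 1
  push_cast
  have hk' : (a₂ : ℚ) = a + 2 * D * k := by
    have : a₂ = a + 2 * D * k := by linarith
    rw [this]; push_cast; ring
  rw [hk', ← hw x]
  ring

end Pool.Agent.Helper84.P2
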