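import Pool.Agent.Helper84.P2.Parity

set_option autoImplicit false

/-!
# Order two: points with private denominators
-/

namespace Pool.Agent.Helper84.P2

open Finset Pool.Agent.Helper84.PC

lemma combine {A B : ℤ} (h : IsCoprime A B) (r s : ℤ) : ∃ a : ℤ, A ∣ a - r ∧ B ∣ a - s := by
  obtain ⟨u, v, huv⟩ := h
  exact ⟨r * (v * B) + s * (u * A), ⟨u * (s - r), by linear_combination r * huv⟩,
    ⟨v * (r - s), by linear_combination s * huv⟩⟩

lemma crt {κ : Type*} (S : Finset κ) (m : κ → ℤ)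
    (hc : Set.Pairwise (S : Set κ) (Function.onFun IsCoprime m)) (r : κ → ℤ) :
    ∃ a : ℤ, ∀ i ∈ S, m i ∣ a - r i := by
  classical
  induction S using Finset.induction_on with
  | empty => exact ⟨0, by simp⟩
  | insert i S hi ih =>
    obtain ⟨a, ha⟩ := ih (hc.mono (by intro x hx; exact mem_coe.2 (mem_insert_of_mem (mem_coe.1 hx))))
    have h1 : IsCoprime (m i) (∏ j ∈ S, m j) := by
      refine IsCoprime.prod_right fun j hj => ?_
      exact hc (mem_coe.2 (mem_insert_self _ _)) (mem_coe.2 (mem_insert_of_mem hj))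
        (by rintro rfl; exact hi hj)
    obtain ⟨b, hb1, hb2⟩ := combine h1 (r i) a
    refine ⟨b, fun j hj => ?_⟩
    rcases mem_insert.1 hj with rfl | hj
    · exact hb1
    · have h2 : m j ∣ b - a := (dvd_prod_of_mem m hj).trans hb2
      have h3 := dvd_add h2 (ha j hj)
      rwa [sub_add_sub_cancel] at h3

variable {ι : Type*} [Fintype ι] [DecidableEq ι]

lemma build {δ : ι → ℚ} (P : Finset ι)
    (hP : ∀ x ∈ P, ∀ y, y ≠ x → Nat.Coprime (δ x).den (δ y).den) {K : ℕ}
    (hK : ∀ x ∈ P, Nat.Coprime (δ x).den K) {c₀ : ℤ} (hc₀ : IsCoprime c₀ (K : ℤ)) (s : ι → ℤ)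
    (hs : ∀ x ∈ P, IsCoprime (s x) ((δ x).den : ℤ)) :
    ∃ a : ℤ, IsCoprime a (K : ℤ) ∧ (∀ x ∈ P, IsCoprime a ((δ x).den : ℤ)) ∧ (K : ℤ) ∣ a - c₀ ∧
      ∀ x ∈ P, ((δ x).den : ℤ) ∣ a * (δ x).num - s x := by
  have hinv : ∀ x, ∃ i j : ℤ, i * (δ x).num + j * (δ x).den = 1 := by
    intro x
    have := (δ x).reduced
    have h2 : IsCoprime (δ x).num ((δ x).den : ℤ) := by
      rw [Int.isCoprime_iff_gcd_eq_one]
      simpa [Int.gcd] using this
    exact h2
  choose i j hij using hinv
  obtain ⟨a₀, ha₀⟩ := crt P (fun x => ((δ x).den : ℤ)) (by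
    intro x hx y hy hxy
    exact Nat.isCoprime_iff_coprime.2 (hP x hx y hxy.symm)) (fun x => s x * i x)
  have hRK : IsCoprime (∏ x ∈ P, ((δ x).den : ℤ)) (K : ℤ) :=
    IsCoprime.prod_left fun x hx => Nat.isCoprime_iff_coprime.2 (hK x hx)
  obtain ⟨a, ha1, ha2⟩ := combine hRK a₀ c₀
  have hd : ∀ x ∈ P, ((δ x).den : ℤ) ∣ a * (δ x).num - s x := by
    intro x hx
    have h1 : ((δ x).den : ℤ) ∣ a - a₀ := (dvd_prod_of_mem (fun x => ((δ x).den : ℤ)) hx).trans ha1
    have h2 := dvd_add h1 (ha₀ x hx)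
    rw [sub_add_sub_cancel] at h2
    obtain ⟨k, hk⟩ := h2
    refine ⟨k * (δ x).num - s x * j x, ?_⟩
    linear_combination (δ x).num * hk + s x * hij x
  refine ⟨a, ?_, fun x hx => ?_, ha2, hd⟩
  · obtain ⟨k, hk⟩ := ha2
    have : a = c₀ + K * k := by linarith
    rw [this]
    exact IsCoprime.add_mul_left_left hc₀ k
  · obtain ⟨k, hk⟩ := hd x hx
    have h1 : IsCoprime (a * (δ x).num) ((δ x).den : ℤ) := by
      have : a * (δ x).num = s x + (δ x).den * k := by linarith
      rw [this]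
      exact IsCoprime.add_mul_left_left (hs x hx) k
    exact IsCoprime.of_mul_left_left h1

open Classical in
/-- **Private denominators.** -/
theorem private_bound {e : ι → Fin 2 → ℚ} {N : ℕ} (hN : 0 < N) {F : ℤ} (hF : ∑ x, ∑ l, e x l = F)
    (G : Ineq e N) (δ : ι → ℚ) (hδ : ∀ x, δ x = e x 1 - e x 0) (P : Finset ι) (z : ι) (hz : z ∈ P)
    (hP : ∀ x ∈ P, ∀ y, y ≠ x → Nat.Coprime (δ x).den (δ y).den)
    (c : ℤ) (hc : ∀ y, y ∉ P → IsCoprime c ((δ y).den : ℤ)) (v : ι → ℤ) :
    1 < ∑ y ∈ univ \ P, |(c : ℚ) * δ y - v y| + ∑ x ∈ P, 1 / ((δ x).den : ℚ) +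
      (if ∃ x ∈ P, Even (δ x).den then 0 else 1 / ((δ z).den : ℚ)) := by
  have hN' := hN
  set M : ℕ := ∏ y ∈ univ \ P, (δ y).den with hM
  set D : ℕ := ∏ x, (δ x).den with hD
  have hD0 : 0 < D := prod_pos fun x _ => (δ x).den_pos
  have hM0 : 0 < M := prod_pos fun x _ => (δ x).den_pos
  have hDM : D = (∏ x ∈ P, (δ x).den) * M := by
    rw [hD, hM, mul_comm, prod_sdiff (subset_univ P)]
  have hnd : ∀ x, (((δ x).num : ℤ) : ℚ) = δ x * (δ x).den := fun x => (Rat.mul_den_eq_num (δ x)).symm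
  have hq0 : ∀ x, (((δ x).den : ℕ) : ℚ) ≠ 0 := fun x => by exact_mod_cast (δ x).den_pos.ne'
  have hDd : ∀ x, ∃ w : ℤ, (D : ℚ) * (e x 1 - e x 0) = w := by
    intro x
    obtain ⟨k, hk⟩ := dvd_prod_of_mem (fun x => (δ x).den) (mem_univ x)
    refine ⟨k * (δ x).num, ?_⟩
    rw [← hδ, hD, hk]
    push_cast
    rw [hnd]; ring
  have hcM : IsCoprime c (M : ℤ) := by
    rw [hM]; push_cast
    exact IsCoprime.prod_right fun y hy => hc y (mem_sdiff.1 hy).2
  have hPM : ∀ x ∈ P, Nat.Coprime (δ x).den M := by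
    intro x hx
    rw [hM]
    refine Nat.Coprime.prod_right fun y hy => hP x hx y ?_
    rintro rfl
    exact (mem_sdiff.1 hy).2 hx
  -- the cost of a multiplier
  have hcost : ∀ (a : ℤ) (s : ι → ℤ) (v' : ι → ℤ),
      (∀ x ∈ P, v' x * (δ x).den = a * (δ x).num - s x) →
      (∀ y, y ∉ P → (v' y - v y) * (δ y).den = (a - c) * (δ y).num) →
      ∑ x, |(a : ℚ) * (e x 1 - e x 0) - v' x| =
        ∑ y ∈ univ \ P, |(c : ℚ) * δ y - v y| + ∑ x ∈ P, |(s x : ℚ)| / ((δ x).den : ℚ) := by
    intro a s v' h1 h2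
    rw [← sum_sdiff (subset_univ P)]
    refine congrArg₂ (· + ·) (sum_congr rfl fun y hy => ?_) (sum_congr rfl fun x hx => ?_)
    · rw [← hδ]
      congr 1
      have h3 : ((v' y : ℚ) - v y) * (δ y).den = (a - c) * (δ y).num := by
        exact_mod_cast h2 y (mem_sdiff.1 hy).2
      rw [hnd] at h3
      have h4 : ((v' y : ℚ) - v y) = (a - c) * δ y := by
        have := hq0 y
        field_simp at h3 ⊢
        linarith
      linarith
    · rw [← hδ]
      have h3 : (v' x : ℚ) * (δ x).den = a * (δ x).num - s x := by exact_mod_cast h1 x hx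
      rw [hnd] at h3
      have h4 : (a : ℚ) * δ x - v' x = s x / (δ x).den := by
        rw [eq_div_iff (hq0 x)]
        linarith
      rw [h4, abs_div, abs_of_pos (a := ((δ x).den : ℚ)) (by exact_mod_cast (δ x).den_pos)]
  by_cases hev : ∃ x ∈ P, Even (δ x).den
  · -- an even denominator
    rw [if_pos hev, add_zero]
    obtain ⟨x₀, hx₀, hev0⟩ := hev
    obtain ⟨a, haM, haP, hac, had⟩ := build P hP hPM hcM (fun _ => 1)
      (fun _ _ => isCoprime_one_left)
    have hexv : ∀ x, ∃ w : ℤ, (x ∈ P → w * (δ x).den = a * (δ x).num - 1) ∧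
        (x ∉ P → (w - v x) * (δ x).den = (a - c) * (δ x).num) := by
      intro x
      by_cases hx : x ∈ P
      · obtain ⟨k, hk⟩ := had x hx
        exact ⟨k, fun _ => by linarith, fun h => absurd hx h⟩
      · obtain ⟨k, hk⟩ := (Int.natCast_dvd_natCast.2 (dvd_prod_of_mem (fun y => (δ y).den)
          (mem_sdiff.2 ⟨mem_univ x, hx⟩))).trans hac
        refine ⟨v x + k * (δ x).num, fun h => absurd h hx, fun _ => ?_⟩
        rw [hk]; ring
    choose v' hv1 hv2 using hexv
    -- odd quotient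
    have hodd0 : Odd (∏ y ∈ univ.erase x₀, (δ y).den) := by
      refine Finset.prod_induction _ Odd (fun _ _ h1 h2 => h1.mul h2) odd_one fun y hy => ?_
      have h1 := hP x₀ hx₀ y (ne_of_mem_erase hy)
      exact Nat.Coprime.odd_of_left (h1.coprime_dvd_left hev0.two_dvd)
    have hDe : Even D := by
      rw [hD]
      exact (even_iff_two_dvd.2 (hev0.two_dvd.trans (dvd_prod_of_mem (fun x => (δ x).den) (mem_univ x₀))))
    have haD : IsCoprime a (D : ℤ) := by
      rw [hDM]; push_cast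
      exact (IsCoprime.prod_right haP).mul_right haM
    have ha2 : IsCoprime a (2 : ℤ) :=
      IsCoprime.of_isCoprime_of_dvd_right haD (by exact_mod_cast hDe.two_dvd)
    have ha2D : IsCoprime a (2 * D : ℤ) := ha2.mul_right haD
    have ha2D' : IsCoprime (a + D) (2 * D : ℤ) := by
      refine IsCoprime.mul_right ?_ ?_
      · obtain ⟨k, hk⟩ := hDe
        have : (a : ℤ) + D = a + 2 * k := by rw [hk]; push_cast; ring
        rw [this]
        exact IsCoprime.add_mul_left_left ha2 _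
      · have := IsCoprime.add_mul_left_left haD 1
        rwa [mul_one] at this
    have hquot : ∀ x, ∃ k : ℤ, (D : ℤ) = (δ x).den * k ∧ (x = x₀ → Odd k) ∧ (x ≠ x₀ → Even k) := by
      intro x
      refine ⟨((∏ y ∈ univ.erase x, (δ y).den : ℕ) : ℤ), ?_, ?_, ?_⟩
      · rw [hD, ← Nat.cast_mul]
        rw [mul_prod_erase univ (fun y => (δ y).den) (mem_univ x)]
      · rintro rfl
        exact_mod_cast hodd0
      · intro hx
        have : 2 ∣ ∏ y ∈ univ.erase x, (δ y).den :=
          hev0.two_dvd.trans (dvd_prod_of_mem (fun x => (δ x).den) (mem_erase.2 ⟨Ne.symm hx, mem_univ x₀⟩))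
        exact_mod_cast even_iff_two_dvd.2 this
    choose k hk1 hk2 hk3 using hquot
    have hnum0 : Odd (δ x₀).num := by
      have := (δ x₀).reduced
      have h2 : Nat.Coprime (δ x₀).num.natAbs 2 := this.coprime_dvd_right hev0.two_dvd
      exact Int.natAbs_odd.1 (Nat.Coprime.odd_of_right h2)
    have hdiff : Odd ((D : ℤ) * F + ∑ x, k x * (δ x).num) := by
      rw [← add_sum_erase univ _ (mem_univ x₀)]
      have h1 : Even ((D : ℤ) * F) := (by exact_mod_cast hDe : Even (D : ℤ)).mul_right _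
      have h2 : Even (∑ x ∈ univ.erase x₀, k x * (δ x).num) :=
        Finset.even_sum _ fun x hx => (hk3 x (ne_of_mem_erase hx)).mul_right _
      have h3 : Odd (k x₀ * (δ x₀).num) := (hk2 x₀ rfl).mul hnum0
      exact h1.add_odd (h3.add_even h2)
    have hfin : ∑ x ∈ P, |((1 : ℤ) : ℚ)| / ((δ x).den : ℚ) = ∑ x ∈ P, 1 / ((δ x).den : ℚ) := by
      refine sum_congr rfl fun x _ => ?_
      rw [Int.cast_one, abs_one]
    rcases Int.even_or_odd (a * F + ∑ x, v' x) with hE | hO
    · have h := parity' hN hF G x₀ hD0 hDd ha2D' (fun x => v' x + k x * (δ x).num) (by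
        have : (a + D) * F + ∑ x, (v' x + k x * (δ x).num) =
            (a * F + ∑ x, v' x) + ((D : ℤ) * F + ∑ x, k x * (δ x).num) := by
          rw [sum_add_distrib]; ring
        rw [this]
        exact hE.add_odd hdiff)
      rw [hcost (a + D) (fun _ => 1) _ (fun x hx => by
        have := hv1 x hx
        have h2 := hk1 x
        linear_combination this - (δ x).num * h2) (fun y hy => by
        have := hv2 y hy
        have h2 := hk1 y
        linear_combination this - (δ y).num * h2), hfin] at h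
      exact h
    · have h := parity' hN hF G x₀ hD0 hDd ha2D v' hO
      rw [hcost a (fun _ => 1) v' hv1 hv2, hfin] at h
      exact h
  · -- all odd
    rw [if_neg hev]
    have hodd : ∀ x ∈ P, Odd (δ x).den := by
      intro x hx
      by_contra h
      exact hev ⟨x, hx, Nat.not_odd_iff_even.1 h⟩
    obtain ⟨c₀, hc₀, hcc⟩ := exists_lift (q := M) (N := 2 * M) (by positivity) (dvd_mul_left _ _) c hcM
    have hP2 : ∀ x ∈ P, Nat.Coprime (δ x).den (2 * M) := fun x hx =>
      Nat.Coprime.mul_right (Nat.Coprime.symm (Nat.coprime_two_left.2 (hodd x hx))) (hPM x hx)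
    have key : ∀ s : ι → ℤ, (∀ x ∈ P, IsCoprime (s x) ((δ x).den : ℤ)) → ∃ (a : ℤ) (v' : ι → ℤ),
        IsCoprime a (2 * D : ℤ) ∧ ((2 * M : ℕ) : ℤ) ∣ a - c₀ ∧
        (∀ x ∈ P, v' x * (δ x).den = a * (δ x).num - s x) ∧
        (∀ y, y ∉ P → (v' y - v y) * (δ y).den = (a - c) * (δ y).num) := by
      intro s hs
      obtain ⟨a, haM, haP, hac, had⟩ := build P hP hP2 hc₀ s hs
      have hacM : (M : ℤ) ∣ a - c := by
        have h1 : (M : ℤ) ∣ a - c₀ := (by push_cast; exact dvd_mul_left _ _ : (M : ℤ) ∣ ((2 * M : ℕ) : ℤ)).trans hac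
        have := dvd_add h1 hcc
        rwa [sub_add_sub_cancel] at this
      have hexv : ∀ x, ∃ w : ℤ, (x ∈ P → w * (δ x).den = a * (δ x).num - s x) ∧
          (x ∉ P → (w - v x) * (δ x).den = (a - c) * (δ x).num) := by
        intro x
        by_cases hx : x ∈ P
        · obtain ⟨k, hk⟩ := had x hx
          exact ⟨k, fun _ => by linarith, fun h => absurd hx h⟩
        · obtain ⟨k, hk⟩ := (Int.natCast_dvd_natCast.2 (dvd_prod_of_mem (fun y => (δ y).den)
            (mem_sdiff.2 ⟨mem_univ x, hx⟩))).trans hacM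
          refine ⟨v x + k * (δ x).num, fun h => absurd h hx, fun _ => ?_⟩
          rw [hk]; ring
      choose v' hv1 hv2 using hexv
      refine ⟨a, v', ?_, hac, hv1, hv2⟩
      rw [hDM]
      push_cast at haM ⊢
      have : (2 : ℤ) * ((∏ x ∈ P, ((δ x).den : ℤ)) * M) = (∏ x ∈ P, ((δ x).den : ℤ)) * (2 * M) := by ring
      rw [this]
      exact (IsCoprime.prod_right haP).mul_right haM
    obtain ⟨a₁, v₁, h11, h12, h13, h14⟩ := key (fun _ => 1) (fun _ _ => isCoprime_one_left)
    obtain ⟨a₂, v₂, h21, h22, h23, h24⟩ := key (fun x => if x = z then 2 else 1) (fun x hx => by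
      split_ifs
      · exact_mod_cast Nat.isCoprime_iff_coprime.2 (Nat.coprime_two_left.2 (hodd x hx))
      · exact isCoprime_one_left)
    have h2a : ((2 * M : ℕ) : ℤ) ∣ a₂ - a₁ := by
      have := dvd_sub h22 h12
      rwa [sub_sub_sub_cancel_right] at this
    have hea : Even (a₂ - a₁) := by
      rw [even_iff_two_dvd]
      exact (by push_cast; exact dvd_mul_right _ _ : (2 : ℤ) ∣ ((2 * M : ℕ) : ℤ)).trans h2a
    have hoddZ : ∀ x ∈ P, Odd (((δ x).den : ℕ) : ℤ) := fun x hx => by exact_mod_cast hodd x hx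
    have hdiff : Odd ((a₂ - a₁) * F + ∑ x, (v₂ x - v₁ x)) := by
      rw [← add_sum_erase univ _ (mem_univ z)]
      have h1 : Even ((a₂ - a₁) * F) := hea.mul_right _
      have h2 : Even (∑ x ∈ univ.erase z, (v₂ x - v₁ x)) := by
        refine Finset.even_sum _ fun x hx => ?_
        have hxz := ne_of_mem_erase hx
        by_cases hxP : x ∈ P
        · have h3 := h13 x hxP
          have h4 := h23 x hxP
          rw [if_neg hxz] at h4
          have h5 : (v₂ x - v₁ x) * (δ x).den = (a₂ - a₁) * (δ x).num := by linarith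
          have h6 : Even ((v₂ x - v₁ x) * ((δ x).den : ℤ)) := by rw [h5]; exact hea.mul_right _
          rcases Int.even_mul.1 h6 with h7 | h7
          · exact h7
          · exact absurd h7 (Int.not_even_iff_odd.2 (hoddZ x hxP))
        · have h3 := h14 x hxP
          have h4 := h24 x hxP
          obtain ⟨k, hk⟩ := h2a
          obtain ⟨r, hr⟩ := dvd_prod_of_mem (fun y => (δ y).den) (mem_sdiff.2 ⟨mem_univ x, hxP⟩)
          have h5 : (v₂ x - v₁ x) * (δ x).den = (2 * (r * k * (δ x).num)) * (δ x).den := by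
            have e1 : (v₂ x - v₁ x) * (δ x).den = (a₂ - a₁) * (δ x).num := by linarith
            rw [e1, hk, hM, hr]
            push_cast
            ring
          have h6 := mul_right_cancel₀ (by exact_mod_cast (δ x).den_pos.ne' : (((δ x).den : ℕ) : ℤ) ≠ 0) h5
          rw [h6]
          exact even_two_mul _
      have h3 : Odd (v₂ z - v₁ z) := by
        have h3 := h13 z hz
        have h4 := h23 z hz
        rw [if_pos rfl] at h4
        have h5 : (v₂ z - v₁ z) * (δ z).den = (a₂ - a₁) * (δ z).num - 1 := by linarith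
        have h6 : Odd ((v₂ z - v₁ z) * ((δ z).den : ℤ)) := by
          rw [h5]
          exact (hea.mul_right _).sub_odd odd_one
        exact (Int.odd_mul.1 h6).1
      exact h1.add_odd (h3.add_even h2)
    have hzq : (0 : ℚ) < ((δ z).den : ℚ) := by exact_mod_cast (δ z).den_pos
    rcases Int.even_or_odd (a₁ * F + ∑ x, v₁ x) with hE | hO
    · have h := parity' hN hF G z hD0 hDd h21 v₂ (by
        have : a₂ * F + ∑ x, v₂ x =
            (a₁ * F + ∑ x, v₁ x) + ((a₂ - a₁) * F + ∑ x, (v₂ x - v₁ x)) := by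
          rw [sum_sub_distrib]; ring
        rw [this]
        exact hE.add_odd hdiff)
      rw [hcost a₂ _ v₂ h23 h24] at h
      refine h.trans_le (le_of_eq ?_)
      rw [add_assoc]
      congr 1
      rw [← add_sum_erase P _ hz, ← add_sum_erase P (fun x => 1 / ((δ x).den : ℚ)) hz]
      have e1 : ∑ x ∈ P.erase z, |((if x = z then 2 else 1 : ℤ) : ℚ)| / ((δ x).den : ℚ) =
          ∑ x ∈ P.erase z, 1 / ((δ x).den : ℚ) := by
        refine sum_congr rfl fun x hx => ?_
        rw [if_neg (ne_of_mem_erase hx), Int.cast_one, abs_one]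
      rw [e1, if_pos rfl]
      push_cast
      rw [abs_of_pos (by norm_num : (0 : ℚ) < 2)]
      ring
    · have h := parity' hN hF G z hD0 hDd h11 v₁ hO
      rw [hcost a₁ (fun _ => 1) v₁ h13 h14] at h
      have hfin : ∑ x ∈ P, |((1 : ℤ) : ℚ)| / ((δ x).den : ℚ) = ∑ x ∈ P, 1 / ((δ x).den : ℚ) := by
        refine sum_congr rfl fun x _ => ?_
        rw [Int.cast_one, abs_one]
      rw [hfin] at h
      have : 0 < 1 / ((δ z).den : ℚ) := by positivity
      linarith

end Pool.Agent.Helper84.P2
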