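import Pool.Agent.Helper84.P2.Avg

set_option autoImplicit false

/-!
# A multiplier for at most three differences
-/

namespace Pool.Agent.Helper84.P2

open Finset Pool.Agent.TH571.PCV

lemma nd_eq (t : ℤ) {n : ℕ} (hn : 0 < n) :
    |(t : ℚ) / n - round ((t : ℚ) / n)| * n = ((min (t % n) (n - t % n) : ℤ) : ℚ) := by
  have hn' : (0 : ℚ) < n := by exact_mod_cast hn
  rw [abs_sub_round_eq_min, min_mul_of_nonneg _ _ hn'.le]
  have h1 : Int.fract ((t : ℚ) / n) * n = ((t % n : ℤ) : ℚ) := by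
    have h2 : (t : ℚ) = n * ((t / n : ℤ) : ℚ) + ((t % n : ℤ) : ℚ) := by
      exact_mod_cast (Int.mul_ediv_add_emod t n).symm
    have h3 : (t : ℚ) / n = ((t % n : ℤ) : ℚ) / n + ((t / n : ℤ) : ℚ) := by
      field_simp
      linarith
    rw [h3, Int.fract_add_intCast, Int.fract_eq_self.2, div_mul_cancel₀ _ hn'.ne']
    constructor
    · exact div_nonneg (by exact_mod_cast Int.emod_nonneg t (by omega)) hn'.le
    · rw [div_lt_one hn']
      exact_mod_cast Int.emod_lt_of_pos t (by omega)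
  rw [sub_mul, h1, one_mul]
  push_cast
  rfl

/-- The average over the units modulo `M`. -/
lemma avg (M : ℕ) [NeZero M] (x : ℚ) (hx : x.den ∣ M) :
    (x.den.totient : ℚ) * x.den * ∑ u : (ZMod M)ˣ,
      |((((u : ZMod M).val : ℕ) : ℤ) : ℚ) * x - round (((((u : ZMod M).val : ℕ) : ℤ) : ℚ) * x)| =
      M.totient * msum x.den := by
  classical
  set n := x.den with hn
  have hn0 : 0 < n := x.den_pos
  have hnq : (n : ℚ) ≠ 0 := by exact_mod_cast hn0.ne'
  have : NeZero n := ⟨hn0.ne'⟩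
  have hc : IsUnit ((x.num : ℤ) : ZMod n) := by
    rw [ZMod.coe_int_isUnit_iff_isCoprime, Int.isCoprime_iff_gcd_eq_one]
    have := x.reduced.symm
    simpa [Int.gcd, hn] using this
  obtain ⟨κ, hκ⟩ := hc
  have h1 : ∀ u : (ZMod M)ˣ, (n : ℚ) *
      |((((u : ZMod M).val : ℕ) : ℤ) : ℚ) * x - round (((((u : ZMod M).val : ℕ) : ℤ) : ℚ) * x)| =
      (((fun v : (ZMod n)ˣ => min ((((v * κ : (ZMod n)ˣ) : ZMod n).val : ℤ))
        (n - ((v * κ : (ZMod n)ˣ) : ZMod n).val)) (ZMod.unitsMap hx u) : ℤ) : ℚ) := by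
    intro u
    have h2 : ((((u : ZMod M).val : ℕ) : ℤ) : ℚ) * x =
        (((((u : ZMod M).val : ℕ) : ℤ) * x.num : ℤ) : ℚ) / n := by
      push_cast
      rw [mul_div_assoc, hn, Rat.num_div_den]
    rw [h2, mul_comm, nd_eq _ hn0]
    have h3 : ((((ZMod.unitsMap hx u) * κ : (ZMod n)ˣ) : ZMod n).val : ℤ) =
        ((((u : ZMod M).val : ℕ) : ℤ) * x.num) % n := by
      have h4 : (((ZMod.unitsMap hx u) * κ : (ZMod n)ˣ) : ZMod n) =
          (((((u : ZMod M).val : ℕ) : ℤ) * x.num : ℤ) : ZMod n) := by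
        rw [Units.val_mul, hκ, ZMod.unitsMap_val]
        push_cast
        rw [ZMod.natCast_val]
      rw [h4, ZMod.val_intCast]
    simp only [h3]
  have h5 := sum_fiber (ZMod.unitsMap hx) (ZMod.unitsMap_surjective hx)
    (fun v : (ZMod n)ˣ => min ((((v * κ : (ZMod n)ˣ) : ZMod n).val : ℤ))
        (n - ((v * κ : (ZMod n)ˣ) : ZMod n).val))
  have h6 : ∑ v : (ZMod n)ˣ, min ((((v * κ : (ZMod n)ˣ) : ZMod n).val : ℤ))
        (n - ((v * κ : (ZMod n)ˣ) : ZMod n).val) = msum n := by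
    have h12 := Equiv.sum_comp (Equiv.mulRight κ) (fun v : (ZMod n)ˣ => min (((v : ZMod n).val : ℤ))
      (n - (v : ZMod n).val))
    simp only [Equiv.coe_mulRight] at h12
    rw [h12]
    exact sum_units_val n (fun k => min (k : ℤ) (n - k))
  rw [h6, ZMod.card_units_eq_totient, ZMod.card_units_eq_totient] at h5
  have h7 : ((n.totient : ℤ) : ℚ) * ((∑ u, (fun v : (ZMod n)ˣ => min ((((v * κ : (ZMod n)ˣ) : ZMod n).val : ℤ))
        (n - ((v * κ : (ZMod n)ˣ) : ZMod n).val)) (ZMod.unitsMap hx u) : ℤ) : ℚ) =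
      (M.totient : ℤ) * msum n := by exact_mod_cast h5
  rw [Int.cast_sum, ← Finset.sum_congr rfl fun u _ => h1 u, ← Finset.mul_sum] at h7
  push_cast at h7 ⊢
  linarith

/-- Existence of a multiplier from a bound for the averages. -/
theorem exists_mult {ι : Type*} (Y : Finset ι) (δ : ι → ℚ) (B : ι → ℚ) (β : ℚ)
    (hB : ∀ y ∈ Y, (msum (δ y).den : ℚ) ≤ B y * ((δ y).den * (δ y).den.totient))
    (hβ : ∑ y ∈ Y, B y ≤ β) :
    ∃ c : ℤ, (∀ y ∈ Y, IsCoprime c ((δ y).den : ℤ)) ∧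
      ∑ y ∈ Y, |(c : ℚ) * δ y - round ((c : ℚ) * δ y)| ≤ β := by
  classical
  set M : ℕ := ∏ y ∈ Y, (δ y).den with hM
  have hM0 : 0 < M := prod_pos fun x _ => (δ x).den_pos
  have : NeZero M := ⟨hM0.ne'⟩
  by_contra hcon
  push Not at hcon
  have hlt : ∑ _u : (ZMod M)ˣ, β < ∑ u : (ZMod M)ˣ, ∑ y ∈ Y,
      |((((u : ZMod M).val : ℕ) : ℤ) : ℚ) * δ y - round (((((u : ZMod M).val : ℕ) : ℤ) : ℚ) * δ y)| := by
    refine sum_lt_sum_of_nonempty univ_nonempty fun u _ => hcon _ fun y hy => ?_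
    have h1 : Nat.Coprime (u : ZMod M).val M := ZMod.val_coe_unit_coprime u
    have h2 : Nat.Coprime (u : ZMod M).val (δ y).den :=
      h1.coprime_dvd_right (dvd_prod_of_mem (fun y => (δ y).den) hy)
    exact Nat.isCoprime_iff_coprime.2 h2
  rw [sum_comm] at hlt
  have h1 : ∀ y ∈ Y, ∑ u : (ZMod M)ˣ,
      |((((u : ZMod M).val : ℕ) : ℤ) : ℚ) * δ y - round (((((u : ZMod M).val : ℕ) : ℤ) : ℚ) * δ y)| ≤
      M.totient * B y := by
    intro y hy
    have h2 := avg M (δ y) (dvd_prod_of_mem (fun y => (δ y).den) hy)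
    have h3 := hB y hy
    have h4 : (0 : ℚ) < ((δ y).den.totient : ℚ) * (δ y).den := by
      have h5 := (δ y).den_pos
      have h6 := Nat.totient_pos.2 h5
      positivity
    have h5 : (0 : ℚ) ≤ M.totient := by positivity
    refine le_of_mul_le_mul_left ?_ h4
    rw [h2]
    nlinarith
  have h2 := sum_le_sum h1
  rw [← mul_sum] at h2
  rw [sum_const, card_univ, ZMod.card_units_eq_totient, nsmul_eq_mul] at hlt
  have h5 : (0 : ℚ) ≤ M.totient := by positivity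
  nlinarith

end Pool.Agent.Helper84.P2
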